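import Pool.Agent.helper62.VQ.SpecE

set_option autoImplicit false

open scoped MatrixGroups ContDiff Topology UpperHalfPlane
open UpperHalfPlane MeasureTheory Filter Set

namespace Pool.Agent.VQE

open Pool.Agent.RS

theorem NUL_cont : Continuous mt := by
  have hE := Matrix.SpecialLinearGroup.isClosedEmbedding_val (n := Fin 2) (R := ℝ)
  have h1 : Continuous fun g : SL(2, ℝ) => (g.1 : Matrix (Fin 2) (Fin 2) ℝ) := hE.continuous
  refine continuous_pi fun i => continuous_pi fun j => ?_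
  exact (continuous_apply_apply i j).comp h1

theorem NUL_bd (B : Set SL(2, ℝ)) (hB : IsCompact B) : ∃ K : ℝ, 0 ≤ K ∧ ∀ g ∈ B, ∀ i j, |g.1 i j| ≤ K := by
  obtain ⟨K, hK⟩ := hB.exists_bound_of_continuousOn NUL_cont.continuousOn
  refine ⟨max K 0, le_max_right _ _, fun g hg i j => ?_⟩
  have h1 := hK g hg
  have h2 : ‖mt g i j‖ ≤ ‖mt g i‖ := norm_le_pi_norm (mt g i) j
  have h3 : ‖mt g i‖ ≤ ‖mt g‖ := norm_le_pi_norm (mt g) i
  exact (h2.trans (h3.trans h1)).trans (le_max_left _ _)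

theorem NUL_core (h1 : NMB_stmt) (h2 : HAL_stmt) (h3 : HAG_stmt) (S : SL(2, ℝ) → SL(2, ℝ)) (r κ : ℝ) (hκ : 0 < κ)
    (hS : Continuous S) (hi : ∀ g E, nm E ≤ r → κ * nm E ≤ nm ((S g)⁻¹ * S (g * E))) (N : Set SL(2, ℝ))
    (hN : MeasurableSet N) (hN0 : mG N = 0) (B : Set SL(2, ℝ)) (hB : IsCompact B)
    (hr : ∀ g ∈ B, ∀ g' ∈ B, nm (g⁻¹ * g') ≤ r) : mG (S ⁻¹' N ∩ B) = 0 := by
  classical
  obtain ⟨-, -, -, -, -, -, -, -, hd⟩ := h1
  have hSB : IsCompact (S '' B) := hB.image hS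
  obtain ⟨K1, hK1, hb1⟩ := NUL_bd B hB
  obtain ⟨K2, hK2, hb2⟩ := NUL_bd (S '' B) hSB
  let M : ℝ := 2 * K1 * (κ⁻¹ * (2 * K2))
  have hM : 0 ≤ M := by positivity
  have hlip : ∀ g ∈ B, ∀ g' ∈ B, dist (mt g) (mt g') ≤ M * dist (mt (S g)) (mt (S g')) := by
    intro g hg g' hg'
    have e1 := (hd g g' K1 (hb1 g hg) (hb1 g' hg')).1
    have e2 := (hd (S g) (S g') K2 (hb2 _ ⟨g, hg, rfl⟩) (hb2 _ ⟨g', hg', rfl⟩)).2
    have e3 := hi g (g⁻¹ * g') (hr g hg g' hg')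
    rw [mul_inv_cancel_left] at e3
    have e4 : nm (g⁻¹ * g') ≤ κ⁻¹ * nm ((S g)⁻¹ * S g') := by
      rw [← div_eq_inv_mul, le_div_iff₀ hκ]
      linarith
    have e5 : nm (g⁻¹ * g') ≤ κ⁻¹ * (2 * K2 * dist (mt (S g)) (mt (S g'))) :=
      e4.trans (mul_le_mul_of_nonneg_left e2 (inv_nonneg.mpr hκ.le))
    have e6 : 2 * K1 * nm (g⁻¹ * g') ≤ 2 * K1 * (κ⁻¹ * (2 * K2 * dist (mt (S g)) (mt (S g')))) :=
      mul_le_mul_of_nonneg_left e5 (by positivity)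
    refine e1.trans (e6.trans (le_of_eq ?_))
    show _ = 2 * K1 * (κ⁻¹ * (2 * K2)) * dist (mt (S g)) (mt (S g'))
    ring
  let Φ : (Fin 2 → Fin 2 → ℝ) → (Fin 2 → Fin 2 → ℝ) := fun y =>
    if h : ∃ g, g ∈ B ∧ mt (S g) = y then mt h.choose else 0
  have hΦ : ∀ g ∈ B, Φ (mt (S g)) = mt g := by
    intro g hg
    have h : ∃ g', g' ∈ B ∧ mt (S g') = mt (S g) := ⟨g, hg, rfl⟩
    have e1 : Φ (mt (S g)) = mt h.choose := dif_pos h
    rw [e1]
    have e2 := hlip h.choose h.choose_spec.1 g hg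
    rw [h.choose_spec.2, dist_self, mul_zero] at e2
    exact dist_le_zero.mp e2
  let s₀ : Set (Fin 2 → Fin 2 → ℝ) := mt '' (N ∩ S '' B)
  have hs₀ : ∀ y ∈ s₀, ∃ g ∈ B, y = mt (S g) := by
    rintro y ⟨x, ⟨-, ⟨g, hg, rfl⟩⟩, rfl⟩
    exact ⟨g, hg, rfl⟩
  have hL : LipschitzOnWith M.toNNReal Φ s₀ := by
    apply LipschitzOnWith.of_dist_le_mul
    intro x hx y hy
    obtain ⟨g, hg, rfl⟩ := hs₀ x hx
    obtain ⟨g', hg', rfl⟩ := hs₀ y hy
    rw [hΦ g hg, hΦ g' hg', Real.coe_toNNReal M hM]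
    exact hlip g hg g' hg'
  obtain ⟨C, hC⟩ := h3 (S '' B) hSB
  have z1 : Measure.hausdorffMeasure 3 s₀ = 0 := by
    have e1 := hC (N ∩ S '' B) (hN.inter hSB.isClosed.measurableSet) inter_subset_right
    have e2 : mG (N ∩ S '' B) = 0 := measure_mono_null inter_subset_left hN0
    rw [e2, mul_zero] at e1
    exact le_antisymm e1 (zero_le)
  have z2 : Measure.hausdorffMeasure 3 (Φ '' s₀) = 0 := by
    have e1 := hL.hausdorffMeasure_image_le (d := 3) (by norm_num)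
    rw [z1, mul_zero] at e1
    exact le_antisymm e1 (zero_le)
  have z3 : Measure.hausdorffMeasure 3 (mt '' (S ⁻¹' N ∩ B)) = 0 := by
    refine measure_mono_null ?_ z2
    rintro y ⟨g, ⟨hgN, hgB⟩, rfl⟩
    exact ⟨mt (S g), ⟨S g, ⟨hgN, g, hgB, rfl⟩, rfl⟩, hΦ g hgB⟩
  obtain ⟨C', hC'⟩ := h2 B hB
  have e1 := hC' (S ⁻¹' N ∩ B) ((hS.measurable hN).inter hB.isClosed.measurableSet) inter_subset_right
  rw [z3, mul_zero] at e1
  exact le_antisymm e1 (zero_le)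

theorem NUL_proof (h1 : NMB_stmt) (h2 : HAL_stmt) (h3 : HAG_stmt) : NUL_stmt := by
  intro S r κ hr hκ hS hi N hN
  have hE := Matrix.SpecialLinearGroup.isClosedEmbedding_val (n := Fin 2) (R := ℝ)
  have i1 : LocallyCompactSpace (Matrix (Fin 2) (Fin 2) ℝ) :=
    inferInstanceAs (LocallyCompactSpace (Fin 2 → Fin 2 → ℝ))
  have i2 : SecondCountableTopology (Matrix (Fin 2) (Fin 2) ℝ) :=
    inferInstanceAs (SecondCountableTopology (Fin 2 → Fin 2 → ℝ))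
  have hL : LocallyCompactSpace SL(2, ℝ) := hE.locallyCompactSpace
  have hS2 : SecondCountableTopology SL(2, ℝ) := hE.isEmbedding.secondCountableTopology
  obtain ⟨N', hNN, hN'm, hN'0⟩ := exists_measurable_superset_of_null hN
  have hcn : Continuous nm := h1.2.2.2.2.2.2.1
  have hn1 : nm (1 : SL(2, ℝ)) = 0 := (h1.2.1 1).mpr rfl
  refine measure_mono_null (preimage_mono hNN) ?_
  apply measure_null_of_locally_null
  intro x _
  have hF : Continuous fun z : SL(2, ℝ) × SL(2, ℝ) => nm (z.1⁻¹ * z.2) := by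
    exact hcn.comp (by fun_prop)
  have hU : {z : SL(2, ℝ) × SL(2, ℝ) | nm (z.1⁻¹ * z.2) < r} ∈ 𝓝 (x, x) := by
    apply (isOpen_lt hF continuous_const).mem_nhds
    show nm (x⁻¹ * x) < r
    rw [inv_mul_cancel, hn1]
    exact hr
  obtain ⟨u, hu, v, hv, huv⟩ := mem_nhds_prod_iff.mp hU
  obtain ⟨B, hB, hBV, hBc⟩ := local_compact_nhds (inter_mem hu hv)
  refine ⟨S ⁻¹' N' ∩ B, inter_mem self_mem_nhdsWithin (mem_nhdsWithin_of_mem_nhds hB), ?_⟩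
  apply NUL_core h1 h2 h3 S r κ hκ hS hi N' hN'm hN'0 B hBc
  intro g hg g' hg'
  have h4 : (g, g') ∈ {z : SL(2, ℝ) × SL(2, ℝ) | nm (z.1⁻¹ * z.2) < r} := huv ⟨(hBV hg).1, (hBV hg').2⟩
  exact le_of_lt h4

end Pool.Agent.VQE
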